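import Mathlib

namespace Pool.Agent.Results.MP_7af562_mp.NotLU

open Matrix

/-- tensor product of single-qubit operators -/
def T {n : ℕ} (A : Fin n → Matrix (Fin 2) (Fin 2) ℂ) :
    Matrix (Fin n → Fin 2) (Fin n → Fin 2) ℂ := fun x y => ∏ i, A i (x i) (y i)

/-- the Pauli matrices `I, X, Y, Z` -/
def σ : Fin 4 → Matrix (Fin 2) (Fin 2) ℂ :=
  ![1, !![0, 1; 1, 0], !![0, -Complex.I; Complex.I, 0], !![1, 0; 0, -1]]

/-- the codespace of a list of Pauli strings -/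
def Q {n m : ℕ} (g : Fin m → Fin n → Fin 4) : Set ((Fin n → Fin 2) → ℂ) :=
  {ψ | ∀ j, T (fun i => σ (g j i)) *ᵥ ψ = ψ}

/-- local unitary equivalence, qubit permutations allowed -/
def LU {n : ℕ} (A B : Set ((Fin n → Fin 2) → ℂ)) : Prop :=
  ∃ (U : Fin n → unitaryGroup (Fin 2) ℂ) (π : Equiv.Perm (Fin n)),
    (fun ψ : (Fin n → Fin 2) → ℂ => T (fun i => (U i).1) *ᵥ fun x => ψ (x ∘ π)) '' A = B

theorem T_mul {n : ℕ} (A B : Fin n → Matrix (Fin 2) (Fin 2) ℂ) :
    T A * T B = T (fun i => A i * B i) := by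
  ext x y
  simp only [T, mul_apply]
  rw [Finset.prod_univ_sum, Fintype.piFinset_univ]
  simp only [Finset.prod_mul_distrib]

theorem T_one {n : ℕ} : T (fun _ : Fin n => 1) = 1 := by
  ext x y
  simp only [T, one_apply]
  rw [Finset.prod_boole]
  simp only [Finset.mem_univ, true_implies, funext_iff]

theorem T_trace {n : ℕ} (A : Fin n → Matrix (Fin 2) (Fin 2) ℂ) :
    (T A).trace = ∏ i, (A i).trace := by
  simp only [T, trace, diag_apply]
  rw [Finset.prod_univ_sum, Fintype.piFinset_univ]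

theorem T_perm {n : ℕ} (A : Fin n → Matrix (Fin 2) (Fin 2) ℂ) (π : Equiv.Perm (Fin n))
    (ψ : (Fin n → Fin 2) → ℂ) (x : Fin n → Fin 2) :
    (T A *ᵥ fun y => ψ (y ∘ π)) x = (T (fun i => A (π i)) *ᵥ ψ) (x ∘ π) := by
  simp only [mulVec, dotProduct, T]
  refine Fintype.sum_equiv (Equiv.arrowCongr π.symm (Equiv.refl _)) _ _ fun y => ?_
  rw [← Equiv.prod_comp π]
  rfl

theorem σ_trace (a : Fin 4) (h : a ≠ 0) : (σ a).trace = 0 := by
  fin_cases a
  · exact absurd rfl h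
  all_goals simp [σ]

/-- product table of the Pauli matrices -/
def mu : Fin 4 → Fin 4 → Fin 4 := ![![0, 1, 2, 3], ![1, 0, 3, 2], ![2, 3, 0, 1], ![3, 2, 1, 0]]

/-- phase table of the Pauli matrices -/
def ph : Fin 4 → Fin 4 → ℕ := ![![0, 0, 0, 0], ![0, 0, 1, 3], ![0, 3, 0, 1], ![0, 1, 3, 0]]

theorem σ_mul (a b : Fin 4) : σ a * σ b = Complex.I ^ ph a b • σ (mu a b) := by
  have h3 : Complex.I ^ 3 = -Complex.I := Complex.I_pow_three
  fin_cases a <;> fin_cases b <;> simp [σ, ph, mu, h3] <;> ext i j <;> fin_cases i <;>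
    fin_cases j <;> simp

/-- Pauli string -/
def G {n : ℕ} (s : Fin n → Fin 4) : Matrix (Fin n → Fin 2) (Fin n → Fin 2) ℂ :=
  T fun i => σ (s i)

/-- product of Pauli strings -/
def M {n : ℕ} (s t : Fin n → Fin 4) : Fin n → Fin 4 := fun i => mu (s i) (t i)

theorem G_mul {n : ℕ} (s t : Fin n → Fin 4) :
    G s * G t = Complex.I ^ (∑ i, ph (s i) (t i)) • G (M s t) := by
  rw [G, G, T_mul]
  ext x y
  simp only [σ_mul, T, G, M, Matrix.smul_apply, smul_eq_mul, Finset.prod_mul_distrib,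
    Finset.prod_pow_eq_pow_sum]

theorem G_zero {n : ℕ} : G (fun _ : Fin n => 0) = 1 := T_one

theorem G_sq {n : ℕ} (s : Fin n → Fin 4) : G s * G s = 1 := by
  have h1 : ∀ a, ph a a = 0 := by decide
  have h2 : ∀ a, mu a a = 0 := by decide
  have h3 : M s s = fun _ => 0 := funext fun i => h2 _
  rw [G_mul, h3, G_zero]
  simp [h1]

theorem G_comm {n : ℕ} (s t : Fin n → Fin 4)
    (h : (∑ i, ph (s i) (t i)) % 4 = (∑ i, ph (t i) (s i)) % 4) : G s * G t = G t * G s := by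
  have h2 : ∀ a b, mu a b = mu b a := by decide
  have h3 : M s t = M t s := funext fun i => h2 _ _
  rw [G_mul, G_mul, Complex.I_pow_eq_pow_mod, h, ← Complex.I_pow_eq_pow_mod, h3]

/-- `s` acts on `B` as a nonzero scalar -/
def Sc {n : ℕ} (B : Set ((Fin n → Fin 2) → ℂ)) (s : Fin n → Fin 4) : Prop :=
  ∃ c : ℂ, c ≠ 0 ∧ ∀ ψ ∈ B, G s *ᵥ ψ = c • ψ

theorem Sc_gen {n m : ℕ} (g : Fin m → Fin n → Fin 4) (j : Fin m) : Sc (Q g) (g j) :=
  ⟨1, one_ne_zero, fun ψ h => by rw [one_smul]; exact h j⟩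

theorem Sc_mul {n : ℕ} {B : Set ((Fin n → Fin 2) → ℂ)} {s t : Fin n → Fin 4} (hs : Sc B s)
    (ht : Sc B t) : Sc B (M s t) := by
  obtain ⟨c, hc, hs⟩ := hs
  obtain ⟨d, hd, ht⟩ := ht
  have h0 := pow_ne_zero (∑ i, ph (s i) (t i)) Complex.I_ne_zero
  refine ⟨(Complex.I ^ (∑ i, ph (s i) (t i)))⁻¹ * (d * c),
    mul_ne_zero (inv_ne_zero h0) (mul_ne_zero hd hc), fun ψ h => ?_⟩
  have h1 : (G s * G t) *ᵥ ψ = (d * c) • ψ := by
    rw [← mulVec_mulVec, ht ψ h, mulVec_smul, hs ψ h, smul_smul]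
  rw [G_mul, smul_mulVec] at h1
  rw [mul_smul, ← h1, smul_smul, inv_mul_cancel₀ h0, one_smul]

theorem transfer {n : ℕ} (A B : Set ((Fin n → Fin 2) → ℂ)) (h : LU A B) :
    ∃ π : Equiv.Perm (Fin n), ∀ s : Fin n → Fin 4, Sc B s →
      ∃ (O : Fin n → Matrix (Fin 2) (Fin 2) ℂ) (c : ℂ), c ≠ 0 ∧ (∀ i, s (π i) = 0 → O i = 1) ∧
        (∀ i, s (π i) ≠ 0 → (O i).trace = 0) ∧ ∀ ψ ∈ A, T O *ᵥ ψ = c • ψ := by
  obtain ⟨U, π, h⟩ := h
  refine ⟨π, fun s ⟨c, hc, hs⟩ =>
    ⟨fun i => star (U (π i)).1 * σ (s (π i)) * (U (π i)).1, c, hc, ?_, ?_, ?_⟩⟩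
  · intro i hi
    simp only [hi, σ, Matrix.cons_val_zero, mul_one]
    exact (U (π i)).2.1
  · intro i hi
    simp only
    rw [trace_mul_cycle, (U (π i)).2.2, one_mul, σ_trace _ hi]
  · intro ψ hψ
    have h1 := hs _ (h ▸ Set.mem_image_of_mem _ hψ)
    have h2 := congrArg (T (fun i => star (U i).1) *ᵥ ·) h1
    simp only [mulVec_smul, mulVec_mulVec, G, T_mul] at h2
    have h3 : (fun i => star (U i).1 * (U i).1) = fun _ => 1 := funext fun i => (U i).2.1
    rw [h3, T_one, one_mulVec] at h2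
    ext x
    have h4 := congrFun h2 (x ∘ π.symm)
    rw [T_perm, Pi.smul_apply] at h4
    have h5 : (x ∘ π.symm) ∘ π = x := by ext i; simp
    rw [h5] at h4
    simpa only [mul_assoc, Pi.smul_apply] using h4

theorem key {n : ℕ} (a b c : Fin n → Fin 4) (hab : G a * G b = G b * G a)
    (hac : G a * G c = G c * G a) (hbc : G b * G c = G c * G b)
    (h0 : ∀ s ∈ [a, b, c, M a b, M a c, M b c, M (M a b) c], ∃ i, s i ≠ 0)
    (t : Fin n → Fin 4) (O : Fin n → Matrix (Fin 2) (Fin 2) ℂ) (z : ℂ) (hz : z ≠ 0)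
    (h1 : ∀ i, t i = 0 → O i = 1) (h2 : ∀ i, t i ≠ 0 → (O i).trace = 0)
    (hO : ∀ ψ ∈ Q ![a, b, c], T O *ᵥ ψ = z • ψ) :
    ∃ s ∈ [fun _ => 0, a, b, c, M a b, M a c, M b c, M (M a b) c], ∀ i, s i = 0 ↔ t i = 0 := by
  obtain ⟨P, hP⟩ : ∃ P, P = (1 + G a) * (1 + G b) * (1 + G c) := ⟨_, rfl⟩
  have e1 : ∀ s : Fin n → Fin 4, G s * (1 + G s) = 1 + G s := by
    intro s
    rw [mul_add, G_sq, mul_one, add_comm]
  have e2 : ∀ s t : Fin n → Fin 4, G s * G t = G t * G s → G t * (1 + G s) = (1 + G s) * G t := by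
    intro s t h
    rw [mul_add, add_mul, mul_one, one_mul, h]
  have hS : ∀ j, G (![a, b, c] j) * P = P := by
    intro j
    rw [hP]
    fin_cases j
    · change G a * _ = _
      rw [← mul_assoc, ← mul_assoc, e1]
    · change G b * _ = _
      rw [← mul_assoc, ← mul_assoc, e2 _ _ hab, mul_assoc (1 + G a), e1]
    · change G c * _ = _
      rw [← mul_assoc, ← mul_assoc, e2 _ _ hac, mul_assoc (1 + G a), e2 _ _ hbc, mul_assoc,
        mul_assoc, e1, mul_assoc]
  have h3 : T O * P = z • P := by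
    ext x y
    have h2 := hO (P *ᵥ Pi.single y 1) fun j => by rw [mulVec_mulVec]; exact congrArg (· *ᵥ _) (hS j)
    rw [mulVec_mulVec] at h2
    simpa using congrFun h2 x
  have h4 : ∃ u v w y : ℂ, P = G (fun _ => 0) + G a + G b + G c + u • G (M a b) + v • G (M a c) +
      w • G (M b c) + y • G (M (M a b) c) := by
    rw [hP, G_zero, show (1 + G a) * (1 + G b) * (1 + G c) = 1 + G a + G b + G c + G a * G b +
      G a * G c + G b * G c + G a * G b * G c by noncomm_ring, G_mul a b, G_mul a c, G_mul b c,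
      smul_mul_assoc, G_mul (M a b) c, smul_smul]
    exact ⟨_, _, _, _, rfl⟩
  obtain ⟨u, v, w, y, h4⟩ := h4
  have h5 : P.trace ≠ 0 := by
    have h6 : ∀ s ∈ [a, b, c, M a b, M a c, M b c, M (M a b) c], (G s).trace = 0 := by
      intro s hs
      obtain ⟨i, hi⟩ := h0 s hs
      rw [G, T_trace, Finset.prod_eq_zero (Finset.mem_univ i) (σ_trace _ hi)]
    simp only [List.mem_cons, List.not_mem_nil, or_false, forall_eq_or_imp, forall_eq] at h6
    simp [h4, G_zero, h6]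
  by_contra h6
  push Not at h6
  have h7 : ∀ s ∈ [fun _ => 0, a, b, c, M a b, M a c, M b c, M (M a b) c],
      (T O * G s).trace = 0 := by
    intro s hs
    obtain ⟨i, hi⟩ := h6 s hs
    rw [G, T_mul, T_trace]
    refine Finset.prod_eq_zero (Finset.mem_univ i) ?_
    rcases hi with ⟨h8, h9⟩ | ⟨h8, h9⟩
    · rw [h8]
      change (O i * 1).trace = 0
      rw [mul_one, h2 i h9]
    · rw [h1 i h9, one_mul, σ_trace _ h8]
  simp only [List.mem_cons, List.not_mem_nil, or_false, forall_eq_or_imp, forall_eq] at h7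
  have h8 := congrArg trace h3
  rw [trace_smul, smul_eq_mul] at h8
  apply mul_ne_zero hz h5
  rw [← h8, h4]
  simp only [mul_add, mul_smul_comm, trace_add, trace_smul, h7, smul_zero, add_zero]

theorem result :
    ¬ LU (Q ![![3, 3, 3, 3, 0], ![1, 1, 0, 0, 1], ![0, 0, 1, 1, 1]])
      (Q ![![3, 3, 0, 3, 1], ![1, 0, 3, 1, 0], ![0, 1, 1, 2, 0]]) ∧
    ¬ LU (Q ![![1, 1, 0, 0, 1, 1], ![0, 0, 1, 1, 1, 1], ![3, 3, 3, 3, 0, 1]])
      (Q ![![1, 1, 3, 1, 0, 0], ![3, 3, 1, 2, 0, 0], ![0, 3, 3, 3, 1, 1]]) := by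
  constructor
  · intro h
    obtain ⟨π, hπ⟩ := transfer _ _ h
    have H : ∀ s, Sc (Q ![![3, 3, 0, 3, 1], ![1, 0, 3, 1, 0], ![0, 1, 1, 2, 0]]) s →
        ∀ j, (∀ i, s i = 0 ↔ i = j) → π.symm j = 4 := by
      intro s hs j hj
      obtain ⟨O, z, hz, h1, h2, h3⟩ := hπ s hs
      have h4 := key _ _ _ (G_comm _ _ (by decide)) (G_comm _ _ (by decide))
        (G_comm _ _ (by decide)) (by
          simp only [List.mem_cons, List.not_mem_nil, or_false, forall_eq_or_imp, forall_eq]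
          decide) (fun i => s (π i)) O z hz h1 h2 h3
      simp only [hj, ← Equiv.eq_symm_apply, List.mem_cons, List.not_mem_nil, or_false,
        exists_eq_or_imp, exists_eq_left] at h4
      generalize π.symm j = k at h4
      revert k
      decide
    have h1 := H _ (Sc_gen _ 0) 2 (by decide)
    have h2 := H _ (Sc_mul (Sc_gen _ 1) (Sc_gen _ 2)) 4 (by decide)
    exact absurd (π.symm.injective (h1.trans h2.symm)) (by decide)
  · intro h
    obtain ⟨π, hπ⟩ := transfer _ _ h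
    have H : ∀ s, Sc (Q ![![1, 1, 3, 1, 0, 0], ![3, 3, 1, 2, 0, 0], ![0, 3, 3, 3, 1, 1]]) s →
        ∀ j, (∀ i, s i = 0 ↔ i = j) → π.symm j = 4 ∨ π.symm j = 5 := by
      intro s hs j hj
      obtain ⟨O, z, hz, h1, h2, h3⟩ := hπ s hs
      have h4 := key _ _ _ (G_comm _ _ (by decide)) (G_comm _ _ (by decide))
        (G_comm _ _ (by decide)) (by
          simp only [List.mem_cons, List.not_mem_nil, or_false, forall_eq_or_imp, forall_eq]
          decide) (fun i => s (π i)) O z hz h1 h2 h3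
      simp only [hj, ← Equiv.eq_symm_apply, List.mem_cons, List.not_mem_nil, or_false,
        exists_eq_or_imp, exists_eq_left] at h4
      generalize π.symm j = k at h4
      revert k
      decide
    have h1 := H _ (Sc_gen _ 2) 0 (by decide)
    have h2 := H _ (Sc_mul (Sc_gen _ 1) (Sc_gen _ 2)) 1 (by decide)
    have h3 := H _ (Sc_mul (Sc_gen _ 0) (Sc_gen _ 2)) 2 (by decide)
    have h4 : ∀ i j, π.symm i = π.symm j → i = j := fun i j h => π.symm.injective h
    rcases h1 with h1 | h1 <;> rcases h2 with h2 | h2 <;> rcases h3 with h3 | h3 <;>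
      first
      | exact absurd (h4 _ _ (h1.trans h2.symm)) (by decide)
      | exact absurd (h4 _ _ (h1.trans h3.symm)) (by decide)
      | exact absurd (h4 _ _ (h2.trans h3.symm)) (by decide)

end Pool.Agent.Results.MP_7af562_mp.NotLU
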